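import Mathlib
import Pool.Agent.K6.H77.LT.Rep
import Pool.Agent.K6.H77.LT.Nss

/-!
# Linear representations of the tempered fundamental groups of K-analytically special varieties

Let `K` be an algebraically closed complete non-archimedean field of characteristic zero, of arbitrary
residue characteristic, and `X` a smooth projective variety over `K` such that `X^an` is `K`-analytically
special. Let `Γ` be the tempered fundamental group of `X^Ber`, `P` the étale fundamental group of `X` and
`G` the topological fundamental group of the complex projective manifold `X_ℂ` which corresponds to `X` (`X`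
is defined over a finitely generated field, which has embeddings in `ℂ`). The properties of these groups
which are used, `IsKSpecialGroup G` and `Comparison ι j` for `ι : G → P`, `j : Γ → P`, are explained
in `SolvableQuotients`. In addition it is assumed here that

`LinSolvable G`: the finite-dimensional complex representations of the subgroups of finite index of `G`
have virtually solvable images.

By a theorem of Campana (Zuo; Campana, Claudon, Eyssidieux) this holds if `X_ℂ` is special in the sense of
Campana; conjecturally `X^an` is `K`-analytically special if and only if this is so. (For Campana special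
`X_ℂ` all the other properties are known too, without reference to `X^an`.)

The question (Q1) is whether `Γ` is virtually abelian.

## Theorem

Let `H` be an open subgroup of finite index of `Γ`, for example the tempered fundamental group of a finite
étale covering of `X`. The images of the following representations of `H` are virtually abelian.

(1) Representations with open kernel over a field of characteristic zero: for example all the
representations over such fields of the topological fundamental group of `X^Ber`.

(2) Continuous representations over a locally compact totally disconnected field of characteristic zero (a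
finite extension of `ℚ_p`). The images need not be relatively compact: these are the tempered local systems
of `ℚ_p`-vector spaces on `X^Ber`.

(3) Continuous representations with relatively compact image over a Hausdorff totally disconnected
topological field of characteristic zero.

(4) Continuous complex representations, for the usual topology of `ℂ`.

(5) There is an open subgroup `H₀` of finite index of `Γ` such that for `H ⊂ H₀` the commutator subgroups
of the images in (1), ..., (4) are finite.

(6) The continuous representations of the open subgroups of the étale fundamental group `P` over Hausdorff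
topological fields of characteristic zero (`ℂ_p` for example) have virtually abelian images.

(7) If one of the representations of `H` in (1), ..., (4) is injective, then `Γ` is virtually abelian, so
Q1 is true for `X`.

So a counterexample to Q1 with Campana special `X_ℂ` has a tempered fundamental group which is not linear
in any of these senses, and none of the groups `π_1(Y^Ber)`, `Y → X` finite étale, can be a linear group
in characteristic zero without being virtually abelian.

## Proof

`Γ` and `G` are not related directly. (3) Let `V` be the closure of the image, a profinite group. The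
homomorphism `H → V` factors through an open subgroup `P'` of `P` (`ext_to`), so it gives a homomorphism
`σ` to `V` from a subgroup of finite index of `G`, with virtually solvable image by the assumption; so `V` is
virtually solvable, and by `SolvableQuotients` the image is virtually abelian. (1) The image is finitely
generated, so it is contained in `GL_n(R)` for a finitely generated ring `R`. By the theorem of
Cassels `R` can be embedded in `ℤ_p` for some prime `p`, and (3) applies. (2) Let `N` be a small
normal open subgroup of `Γ`, so that `ρ(N)` is relatively compact. Let `B` be the algebra spanned by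
`ρ(N)` and `B'` its commutant in the algebra of matrices. The action `c` of `H` on `B` by conjugation with
`ρ(h)` has relatively compact image: it maps a basis of `B` contained in `ρ(N)` into `ρ(N)`. The action
`d` of `H` on `B'` has an open kernel, which contains `N`. So `c` and `d` have virtually solvable images by
(3) and (1). If `c(x) = 1` then `ρ(x)` commutes with `B`, so `ρ(x)` is in `B'`; if `d(y) = 1` then `ρ(y)`
commutes with `B'`. So `ρ` is commutative on the intersection of the kernels of `c` and `d`, and `ρ(H)`
is virtually solvable. (4) `GL_n(ℂ)` has no small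
subgroups, so the kernel is open.

The modules `LT.Loc` and `LT.Desc` are by helper70. The embedding of Cassels is in the module
`Pool.Agent.N530.LS.A2` of the starting library.
-/

namespace Pool.Agent.Results.MP_e120ef_ag.LinearRepresentations

open Matrix Pool.Agent.K6.H77.KT Pool.Agent.K6.H77.LT

/-- The representation `ρ` of the topological group `H` over the field `k` of characteristic zero has an
open kernel. -/
def Discrete {H k : Type} [Group H] [TopologicalSpace H] [Field k] {n : ℕ} (ρ : H →* GL (Fin n) k) :
    Prop :=
  CharZero k ∧ IsOpen (ρ.ker : Set H)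

/-- The representation `ρ` is continuous for the given topology of the field `F`, and `F` is a locally
compact totally disconnected Hausdorff field of characteristic zero. -/
def Local {H F : Type} [Group H] [TopologicalSpace H] [Field F] [TopologicalSpace F] {n : ℕ}
    (ρ : H →* GL (Fin n) F) : Prop :=
  CharZero F ∧ IsTopologicalRing F ∧ T2Space F ∧ TotallyDisconnectedSpace F ∧
    LocallyCompactSpace F ∧ Continuous ρ

/-- The representation `ρ` is continuous with relatively compact image, and `F` is a totally
disconnected Hausdorff topological field of characteristic zero. -/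
def Bounded {H F : Type} [Group H] [TopologicalSpace H] [Field F] [TopologicalSpace F] {n : ℕ}
    (ρ : H →* GL (Fin n) F) : Prop :=
  CharZero F ∧ IsTopologicalRing F ∧ T2Space F ∧ TotallyDisconnectedSpace F ∧ Continuous ρ ∧
    ∃ C : Set (GL (Fin n) F), IsCompact C ∧ ∀ h : H, ρ h ∈ C

/-- All the representations of the kinds (1), (2), (3), (4) of the topological group `H` have the
property `R`. -/
def AllReps (H : Type) [Group H] [TopologicalSpace H]
    (R : ∀ (Q : Type) [Group Q], (H →* Q) → Prop) : Prop :=
  (∀ (k : Type) [Field k] (n : ℕ) (ρ : H →* GL (Fin n) k), Discrete ρ → R _ ρ) ∧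
  (∀ (F : Type) [Field F] [TopologicalSpace F] (n : ℕ) (ρ : H →* GL (Fin n) F), Local ρ → R _ ρ) ∧
  (∀ (F : Type) [Field F] [TopologicalSpace F] (n : ℕ) (ρ : H →* GL (Fin n) F),
    Bounded ρ → R _ ρ) ∧
  (∀ (n : ℕ) (ρ : H →* GL (Fin n) ℂ), Continuous ρ → R _ ρ)

theorem result {G P Γ : Type} [Group G] [Group P] [TopologicalSpace P] [IsTopologicalGroup P]
    [CompactSpace P] [TotallyDisconnectedSpace P] [T2Space P] [Group Γ] [TopologicalSpace Γ]
    [IsTopologicalGroup Γ] (ι : G →* P) (j : Γ →* P) (hG : IsKSpecialGroup G)
    (hL : LinSolvable G) (hc : Comparison ι j) :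
    -- (1), (2), (3), (4)
    (∀ H : Subgroup Γ, IsOpen (H : Set Γ) → H.FiniteIndex →
      AllReps H fun _ _ ρ => VirtAbelian ρ.range) ∧
    -- (5)
    (∃ H₀ : Subgroup Γ, IsOpen (H₀ : Set Γ) ∧ H₀.FiniteIndex ∧
      ∀ H : Subgroup Γ, IsOpen (H : Set Γ) → H.FiniteIndex → H ≤ H₀ →
        AllReps H fun _ _ ρ => Finite (⁅ρ.range, ρ.range⁆ : Subgroup _)) ∧
    -- (6)
    (∀ U : Subgroup P, IsOpen (U : Set P) → ∀ (F : Type) [Field F] [CharZero F]
      [TopologicalSpace F] [IsTopologicalRing F] [T2Space F] (n : ℕ) (ρ : U →* GL (Fin n) F),
      Continuous ρ → VirtAbelian ρ.range) ∧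
    -- (7)
    (∀ H : Subgroup Γ, IsOpen (H : Set Γ) → H.FiniteIndex →
      AllReps H fun _ _ ρ => Function.Injective ρ → VirtAbelian Γ) := by
  have hker : ∀ (H : Subgroup Γ) (n : ℕ) (ρ : H →* GL (Fin n) ℂ), Continuous ρ →
      IsOpen (ρ.ker : Set H) := by
    intro H n ρ hρ
    refine open_ker ?_ ρ hρ
    intro U hU
    obtain ⟨U', hU', hUU⟩ := mem_nhds_subtype (H : Set Γ) (1 : H) U |>.1 hU
    obtain ⟨N, hN, hNo, hNU, -⟩ := hc.basis U' hU'
    exact ⟨N.subgroupOf H, hNo.preimage continuous_subtype_val, fun x hx => hUU (hNU hx)⟩
  have hsol : ∀ H : Subgroup Γ, IsOpen (H : Set Γ) → H.FiniteIndex →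
      AllReps H fun _ _ ρ => VirtSolvable ρ.range := by
    intro H hHo hH
    refine ⟨?_, ?_, ?_, ?_⟩
    · rintro k _ n ρ ⟨h0, h1⟩
      exact lin_open desc pad hG.fg hL hc hHo hH ρ h1
    · rintro F _ _ n ρ ⟨h0, h1, h2, h3, h4, h5⟩
      exact lin_local desc pad loc hG.fg hL hc hHo hH ρ h5
    · rintro F _ _ n ρ ⟨h0, h1, h2, h3, h4, h5⟩
      exact lin_bounded desc hG.fg hL hc hHo hH ρ h4 h5
    · intro n ρ h1
      exact lin_open desc pad hG.fg hL hc hHo hH ρ (hker H n ρ h1)
  have hab : ∀ H : Subgroup Γ, IsOpen (H : Set Γ) → H.FiniteIndex →
      AllReps H fun _ _ ρ => VirtAbelian ρ.range := by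
    intro H hHo hH
    obtain ⟨s1, s2, s3, s4⟩ := hsol H hHo hH
    refine ⟨?_, ?_, ?_, ?_⟩
    · intro k _ n ρ h
      exact open_ab hG hc hHo hH ρ h.2 (s1 k n ρ h)
    · intro F _ _ n ρ h
      obtain ⟨h0, h1, h2, h3, h4, h5⟩ := id h
      exact hom_all hG hc H hHo hH _ ρ h5 (s2 F n ρ h)
    · intro F _ _ n ρ h
      obtain ⟨h0, h1, h2, h3, h4, h5⟩ := id h
      exact hom_all hG hc H hHo hH _ ρ h4 (s3 F n ρ h)
    · intro n ρ h
      exact open_ab hG hc hHo hH ρ (hker H n ρ h) (s4 n ρ h)
  refine ⟨hab, ?_, ?_, ?_⟩
  · obtain ⟨H₀, hH₀o, hH₀, hcore⟩ := open_tf hG hc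
    refine ⟨H₀, hH₀o, hH₀, fun H hHo hH hle => ?_⟩
    obtain ⟨c1, c2⟩ := hcore H hHo hH hle
    obtain ⟨s1, s2, s3, s4⟩ := hsol H hHo hH
    refine ⟨?_, ?_, ?_, ?_⟩
    · intro k _ n ρ h
      exact c1 _ ρ h.2 (s1 k n ρ h)
    · intro F _ _ n ρ h
      obtain ⟨h0, h1, h2, h3, h4, h5⟩ := id h
      exact c2 _ ρ h5 (s2 F n ρ h)
    · intro F _ _ n ρ h
      obtain ⟨h0, h1, h2, h3, h4, h5⟩ := id h
      exact c2 _ ρ h4 (s3 F n ρ h)
    · intro n ρ h
      exact c1 _ ρ (hker H n ρ h) (s4 n ρ h)
  · intro U hU F _ _ _ _ _ n ρ hρ
    have hUf : U.FiniteIndex := by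
      have := Subgroup.quotient_finite_of_isOpen U hU
      exact Subgroup.finiteIndex_of_finite_quotient
    have h1 := lin_etale desc hc.dense_ι hG.fg hL hU hUf ρ hρ
    exact hom_all hG (comp_id hc.dense_ι) U hU hUf _ ρ hρ h1
  · intro H hHo hH
    obtain ⟨a1, a2, a3, a4⟩ := hab H hHo hH
    exact ⟨fun k _ n ρ h hi => vab_of_inj (ι := ι) (j := j) hH hi (a1 k n ρ h),
      fun F _ _ n ρ h hi => vab_of_inj (ι := ι) (j := j) hH hi (a2 F n ρ h),
      fun F _ _ n ρ h hi => vab_of_inj (ι := ι) (j := j) hH hi (a3 F n ρ h),
      fun n ρ h hi => vab_of_inj (ι := ι) (j := j) hH hi (a4 n ρ h)⟩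

end Pool.Agent.Results.MP_e120ef_ag.LinearRepresentations
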