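import Mathlib
import Pool.Agent.K6.H77.LT.Cla

/-!
# K-analytically special varieties over fields of residue characteristic zero

Let `K` be an algebraically closed complete non-archimedean field of residue characteristic zero and `X` a
smooth projective variety over `K` such that `X^an` is `K`-analytically special; let `X` be defined over the
algebraic closure of the field `ℂ((t))` in `K` (a degenerating family `X_t` of complex projective
manifolds). Let `Γ` be the tempered fundamental group of `X^Ber` and `G` the fundamental group of `X_t`.

There is a homomorphism `h : G → Γ` with dense image: `Γ` is the inverse limit of extensions of the groups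
`Gal(Y/X)` by `π_1(Y^Ber)`, for the Galois finite étale coverings `Y` of `X`, and `Y^Ber` is homotopy
equivalent to the dual complex of the special fibre of a semistable model of `Y` (Berkovich), which is the
target of a continuous map from `Y_t`, equivariant up to homotopy, which is surjective on `π_1`.

The properties of `G` in `IsKSpecialGroup G` are explained in `SolvableQuotients`. Moreover

`ElementaryOnTrees G`: if a subgroup `H` of finite index of `G` acts on a tree, then a subgroup of finite
index of `H` fixes a vertex or an end. This is known here (Gromov-Schoen, Sun: otherwise some finite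
étale covering of `X_t`, and of `X`, has a surjective map to a curve of genus at least two, which is
impossible as `X^an` is `K`-analytically special).

`LinN n G`: the complex representations of dimension `n` of the subgroups of finite index of `G` have
virtually solvable images. This is known here for `n = 2` (Corlette and Simpson: otherwise, after a finite
étale covering, the representation comes from a curve of genus at least two or from a nonisotrivial family
of abelian varieties; the latter is impossible by the theorem of Javanpykar and Vezzani that the moduli
spaces of abelian varieties are `K`-analytically Brody hyperbolic in residue characteristic zero), and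
for all `n` if `X_t` is special in the sense of Campana.

The question (Q1) is whether `Γ` is virtually abelian.

## Theorem

Let `H` be an open subgroup of finite index of `Γ`.

(1) Let `Q` be a Hausdorff topological group such that every infinite finitely generated subgroup `S` of `Q`
has a subgroup of finite index with infinite abelianization, or acts virtually without fixed vertices on
some tree on which a subgroup of finite index of `Q` acts (`Cls True False Q`). Then all the continuous
homomorphisms `H → Q` have virtually abelian image.

(2) The class of groups in (1) contains the elementary amenable groups, the locally indicable groups, and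
the groups which act on finitely many trees such that the common stabilizers of the vertices are in
these classes. (Known examples, not formalized: free and surface groups, groups of germs of
diffeomorphisms with trivial derivative, Burger-Mozes groups, `SL_2(ℤ[1/N])`.)

(3) If `LinN n G` is true then all the continuous representations of `H` of dimension `n` over Hausdorff
topological fields of characteristic zero (discrete, `ℝ`, `ℂ`, `ℚ_p`, `ℂ_p`, ...) have virtually abelian
image. By the above this is unconditional for `n = 2`.

(4) If `LinN n G` is true for all `n`, for example if `X_t` is Campana special, then (1) holds for all the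
groups `Q` such that every infinite finitely generated subgroup `S` has one of the properties in (1), or
an infinite image under a complex representation of a subgroup of finite index of `Q` (`Cls True True Q`).

(5) There is an open subgroup `H₀` of finite index of `Γ` such that for `H ⊂ H₀` the commutator subgroups of
the images in (1), (3), (4) are finite.

(6) If `G` itself is in the class (1), or virtually solvable, then `G` and `Γ` are virtually abelian (Q1);
the same if `LinN n G` is true for all `n` and `G` is in the class (4).

## Proof

Let `G₀` be a subgroup of finite index of `G` with the largest Betti number and `A` the kernel of the map to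
its rational homology. `A` is finitely generated and its subgroups of finite index have finite
abelianizations (`SolvableQuotients`, `albKer_fab`). So the image of `A` in `Q` is finite: otherwise it has
one of the properties in (1), (4); it cannot have a subgroup of finite index with infinite
abelianization, its action on trees has a fixed vertex by `ElementaryOnTrees` (a subgroup of finite index
which fixes an end fixes a vertex), and its images under complex representations are virtually solvable,
hence finite. Then the image of `G₀` is finite by abelian, and this passes to the closure. The argument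
for trees is in the module `Pool.Agent.K6.H54.TR.Hom` (helper54); some of the classes of groups are from
`Pool.Agent.K6.H86.QS` (helper86), `DESC` is by helper70.
-/

namespace Pool.Agent.Results.MP_e120ef_ag.ResidueCharacteristicZero

open Matrix Pool.Agent.K6.H77.KT Pool.Agent.K6.H77.LT

open Pool.Agent.N212.SG (ElemAmenable LocallyIndicable Indicable)

open Pool.Agent.K6.H54.TR (ElementaryOnTrees TreeAction stab)

/-- All the continuous homomorphisms from the open subgroups of finite index of `Γ` to the Hausdorff
topological groups in the class `C` have virtually abelian image. -/
def ImagesIn (Γ : Type) [Group Γ] [TopologicalSpace Γ] (C : ∀ (Q : Type) [Group Q], Prop) : Prop :=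
  ∀ H : Subgroup Γ, IsOpen (H : Set Γ) → H.FiniteIndex →
    ∀ (Q : Type) [Group Q] [TopologicalSpace Q] [IsTopologicalGroup Q] [T2Space Q] (f : H →* Q),
      Continuous f → C Q → VirtAbelian f.range

theorem result {G Γ : Type} [Group G] [Group Γ] [TopologicalSpace Γ] [IsTopologicalGroup Γ]
    [T2Space Γ] (h : G →* Γ) (hd : DenseRange h) (hG : IsKSpecialGroup G)
    (ht : ElementaryOnTrees G) :
    -- (1)
    ImagesIn Γ (fun Q _ => Cls True False Q) ∧
    -- (2)
    (∀ (Q : Type) [Group Q], (ElemAmenable.{0} Q ∨ LocallyIndicable Q ∨ Indicable Q ∨
      ∃ (I : Type) (_ : Finite I) (a : I → TreeAction Q), ∀ v : ∀ i, (a i).V,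
        ElemAmenable.{0} (stab a v) ∨ LocallyIndicable (stab a v) ∨ Indicable (stab a v)) →
      Cls True False Q) ∧
    -- (3)
    (∀ n : ℕ, LinN n G → ∀ H : Subgroup Γ, IsOpen (H : Set Γ) → H.FiniteIndex →
      ∀ (F : Type) [Field F] [CharZero F] [TopologicalSpace F] [IsTopologicalRing F] [T2Space F]
        (ρ : H →* GL (Fin n) F), Continuous ρ → VirtAbelian ρ.range) ∧
    -- (4)
    ((∀ n, LinN n G) → ImagesIn Γ (fun Q _ => Cls True True Q)) ∧
    -- (5)
    (∃ H₀ : Subgroup Γ, IsOpen (H₀ : Set Γ) ∧ H₀.FiniteIndex ∧
      ∀ H : Subgroup Γ, IsOpen (H : Set Γ) → H.FiniteIndex → H ≤ H₀ →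
        (∀ (Q : Type) [Group Q] [TopologicalSpace Q] [IsTopologicalGroup Q] [T2Space Q]
          (f : H →* Q), Continuous f → (Cls True False Q ∨ ((∀ n, LinN n G) ∧ Cls True True Q)) →
          Finite (⁅f.range, f.range⁆ : Subgroup Q)) ∧
        (∀ n : ℕ, LinN n G → ∀ (F : Type) [Field F] [CharZero F] [TopologicalSpace F]
          [IsTopologicalRing F] [T2Space F] (ρ : H →* GL (Fin n) F), Continuous ρ →
          Finite (⁅ρ.range, ρ.range⁆ : Subgroup (GL (Fin n) F)))) ∧
    -- (6)
    ((Cls True False G ∨ VirtSolvable G ∨ ((∀ n, LinN n G) ∧ Cls True True G)) →
      VirtAbelian G ∧ VirtAbelian Γ) := by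
  have c1 : ∀ {Q : Type} [Group Q], Cls True False Q →
      Cls (ElementaryOnTrees G) (∀ n, LinN n G) Q := fun hQ =>
    hQ.mono (fun _ => ht) (fun h => h.elim)
  have c2 : (∀ n, LinN n G) → ∀ {Q : Type} [Group Q], Cls True True Q →
      Cls (ElementaryOnTrees G) (∀ n, LinN n G) Q := fun hL _ _ hQ =>
    hQ.mono (fun _ => ht) (fun _ => hL)
  have ind : ∀ (Q : Type) [Group Q], (ElemAmenable.{0} Q ∨ LocallyIndicable Q ∨ Indicable Q) →
      Indicable Q := by
    intro Q _ hQ
    rcases hQ with hQ | hQ | hQ
    · exact Pool.Agent.K6.H54.TR.indicable_ea Q hQ
    · exact Pool.Agent.K6.H54.TR.indicable_li Q hQ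
    · exact hQ
  refine ⟨?_, ?_, ?_, ?_, ?_, ?_⟩
  · intro H hHo hH Q _ _ _ _ f hf hQ
    exact r0_all hd hG hHo hH f hf (Or.inl (c1 hQ))
  · intro Q _ hQ
    rcases hQ with hQ | hQ | hQ | ⟨I, hI, a, ha⟩
    · exact (cls_indicable (ind Q (Or.inl hQ))).mono (fun h => h.elim) id
    · exact (cls_indicable (ind Q (Or.inr (Or.inl hQ)))).mono (fun h => h.elim) id
    · exact (cls_indicable hQ).mono (fun h => h.elim) id
    · exact cls_tree a fun v => ind _ (ha v)
  · intro n hL H hHo hH F _ _ _ _ _ ρ hρ
    exact r0_all hd hG hHo hH ρ hρ (cond_rep hG hL hH ρ)
  · intro hL H hHo hH Q _ _ _ _ f hf hQ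
    exact r0_all hd hG hHo hH f hf (Or.inl (c2 hL hQ))
  · obtain ⟨H₀, hH₀o, hH₀, hcore⟩ := r0_small hd hG
    refine ⟨H₀, hH₀o, hH₀, fun H hHo hH hle => ⟨?_, ?_⟩⟩
    · intro Q _ _ _ _ f hf hQ
      refine (hcore H hHo hH hle Q f hf (Or.inl ?_)).1
      rcases hQ with hQ | ⟨hL, hQ⟩
      · exact c1 hQ
      · exact c2 hL hQ
    · intro n hL F _ _ _ _ _ ρ hρ
      exact (hcore H hHo hH hle _ ρ hρ (cond_rep hG hL hH ρ)).1
  · intro hc
    have h1 : VirtAbelian G := by
      refine vab_group hG ?_
      rcases hc with hc | hc | ⟨hL, hc⟩
      · exact Or.inl (c1 hc)
      · exact Or.inr hc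
      · exact Or.inl (c2 hL hc)
    exact ⟨h1, dense_vab hd h1⟩

end Pool.Agent.Results.MP_e120ef_ag.ResidueCharacteristicZero
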