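import Mathlib
import Pool.Agent.K6.H77.KT.Tot

/-!
# Solvable quotients of the tempered fundamental groups of K-analytically special varieties

Let `K` be an algebraically closed complete non-archimedean field of characteristic zero and `X` a smooth
projective variety over `K` such that `X^an` is `K`-analytically special. Let `Γ` be the tempered
fundamental group of `X^Ber` and `P` the étale fundamental group of `X`. The variety `X` is defined over
a finitely generated field, which has embeddings in `ℂ`; let `X_ℂ` be the resulting complex projective
manifold and `G` its (topological) fundamental group. Then `P` is the profinite completion of `G`, with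
`ι : G → P`, and of `Γ`, with `j : Γ → P`.

The question (Q1) is whether `Γ` is virtually abelian.

## What is used about `G`, `P` and `Γ` (known theorems)

`Comparison ι j`: the images of `ι` and `j` are dense, `j` is continuous, the open subgroups of finite
index of `Γ` are the inverse images of open subgroups of `P`, and there is a basis of neighbourhoods of the
identity of `Γ` of open normal subgroups `N` with finitely generated quotients `Γ / N` (André: `Γ / N` is an
extension of a finite group `Gal(Y/X)` by the topological fundamental group of `Y^Ber`, and `Y^Ber` is
homotopy equivalent to a finite polyhedron by Berkovich and Hrushovski-Loeser). These properties hold for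
all `X`.

`IsKSpecialGroup G`: the connected finite étale coverings `Y` of `X` are again `K`-analytically special, the
Albanese map of `Y` is surjective (its image is a `K`-analytically special closed subvariety of an abelian
variety) and no `Y` has a surjective map to a curve of genus at least two (Cherry, Morrow-Rosso). These
properties pass to the coverings of `X_ℂ`, and so for all the subgroups `H` of finite index of `G`:
`fg, betti`: `G` is finitely generated, and `b_1(H) = 2 q(Y) ≤ 2 dim X`;
`cup`: the cup product `Λ² H^1(H, ℂ) → H^2(H, ℂ)` is injective (the Albanese map is surjective);
`char`: `H^1(H, ℂ_l) = 0` for the characters `l` of infinite order (Beauville, Simpson, Arapura, Campana,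
Delzant: otherwise some `Y` maps to a curve of genus at least two);
`albanese`: the kernel of `H → H_1(H, ℚ)` is finitely generated (Delzant, Napier-Ramachandran).

## Theorem

Let `H` be an open subgroup of finite index of `Γ`.

(1) Let `f : H → Q` be a continuous homomorphism to a Hausdorff group. If the image of `f` is virtually
solvable, it is virtually abelian.

(2) If `H` is contained in a certain open subgroup `H₀` of finite index of `Γ`, the commutator subgroup of
the image is even finite, and the image is abelian if `Q` is torsion-free.

(3) If `Γ` is virtually solvable, then `Γ` is virtually abelian (Q1). If `P` or `G` is virtually solvable,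
then `P` is virtually abelian.

(4) If `f : H → Q` is a homomorphism such that the elements outside the kernel are detected by continuous
homomorphisms which factor through `f` to Hausdorff torsion-free groups with virtually solvable images, then
the image of `f` is virtually abelian. So Q1 is true for `X` if an open subgroup of finite index of `Γ` is
residually (torsion-free solvable). The homomorphisms with open kernel from `H` to free groups have
abelian images: the groups `π_1(Y^Ber)` of the finite étale coverings `Y` of `X` have no nonabelian free
quotients.

(5) If `Γ` has a basis of neighbourhoods of the identity of open normal subgroups `N` with residually finite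
quotients `Γ / N`, then `Γ` is virtually abelian if and only if it is virtually solvable, if and only if
`P` is virtually abelian, if and only if `P` is virtually solvable.

For `Γ = P` the parts (1), (2), (4) are results on the étale fundamental group.

## Proof

Let `G₀` be a subgroup of finite index of `G` with the largest Betti number, and `A` the kernel of the map
to its rational homology. The subgroups of finite index of `A` have finite abelianizations: an eigenvector
of the action of a subgroup of finite index of `G₀` on such an abelianization gives a class in
`H^1(H, ℂ_l)`, so `l` has finite order and, after passing to a subgroup, `l` is trivial, which contradicts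
the injectivity of the cup product. So virtually solvable quotients of the subgroups
of finite index of `G₀` are finite by abelian (`good_sub`). This is moved to `P`, and then to `Γ`: the
closure `C` in `P` of the image of `D = ker f` contains the commutators of an open subgroup `A'` of finite
index of `Γ`. The groups `G` and `Γ` are not related directly, and the quotients `Γ / N` need not be
residually finite, so it is to be shown that no element of `H` outside `D` is mapped into `C`. For `N` in
the basis the group `T = H / D N` is finitely generated and virtually solvable, and the commutators of
the elements of a subgroup of finite index are in all its normal subgroups of finite index; by P. Hall's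
theorem on finitely generated metabelian groups `T` is then residually finite (`Hall`), which gives this
(`lemR`).
-/

namespace Pool.Agent.Results.MP_e120ef_ag.SolvableQuotients

open Pool.Agent.K6.H77.KT

/-- (1), (2), (3), (4), (5) as in the introduction. -/
theorem result {G P Γ : Type} [Group G] [Group P] [TopologicalSpace P] [IsTopologicalGroup P]
    [CompactSpace P] [TotallyDisconnectedSpace P] [T2Space P] [Group Γ] [TopologicalSpace Γ]
    [IsTopologicalGroup Γ] [T2Space Γ] (ι : G →* P) (j : Γ →* P) (hG : IsKSpecialGroup G)
    (hc : Comparison ι j) :
    -- (1)
    (∀ H : Subgroup Γ, IsOpen (H : Set Γ) → H.FiniteIndex →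
      ∀ (Q : Type) [Group Q] [TopologicalSpace Q] [T2Space Q] (f : H →* Q), Continuous f →
        VirtSolvable f.range → VirtAbelian f.range) ∧
    -- (2)
    (∃ H₀ : Subgroup Γ, IsOpen (H₀ : Set Γ) ∧ H₀.FiniteIndex ∧
      ∀ H : Subgroup Γ, IsOpen (H : Set Γ) → H.FiniteIndex → H ≤ H₀ →
        ∀ (Q : Type) [Group Q] [TopologicalSpace Q] [T2Space Q] (f : H →* Q), Continuous f →
          VirtSolvable f.range → Finite (⁅f.range, f.range⁆ : Subgroup Q) ∧
            (TorsionFree Q → ∀ x y : H, f (x * y) = f (y * x))) ∧
    -- (3)
    ((VirtSolvable Γ → VirtAbelian Γ) ∧ (VirtSolvable P → VirtAbelian P) ∧
      (VirtSolvable G → VirtAbelian P)) ∧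
    -- (4)
    ((∀ H : Subgroup Γ, IsOpen (H : Set Γ) → H.FiniteIndex → ∀ (Q : Type) [Group Q] (f : H →* Q),
        ResSolvable f → VirtAbelian f.range) ∧
      (∀ H : Subgroup Γ, IsOpen (H : Set Γ) → H.FiniteIndex → ResSolvable (MonoidHom.id H) →
        VirtAbelian Γ) ∧
      (∀ H : Subgroup Γ, IsOpen (H : Set Γ) → H.FiniteIndex → ∀ (X : Type) (f : H →* FreeGroup X),
        IsOpen (f.ker : Set H) → ∀ x y : H, f (x * y) = f (y * x))) ∧
    -- (5)
    (ResFiniteBasis Γ → [VirtAbelian Γ, VirtSolvable Γ, VirtAbelian P, VirtSolvable P].TFAE) := by
  refine ⟨fun H hHo hH Q _ _ _ f hf hs => hom_all hG hc H hHo hH Q f hf hs, hom_tf hG hc,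
    ⟨all_solvable hG hc, etale_solvable hG hc.dense_ι,
      fun h => etale_solvable hG hc.dense_ι (dense_solvable hc.dense_ι h)⟩,
    ⟨fun H hHo hH Q _ f hs => hom_residual hG hc H hHo hH Q f hs, ?_,
      fun H hHo hH X f hf => hom_free hG hc H hHo hH X f hf⟩,
    tfae hG hc⟩
  intro H hHo hH hs
  have h1 := hom_residual hG hc H hHo hH H (MonoidHom.id H) hs
  have h2 : (MonoidHom.id H).range = ⊤ := MonoidHom.range_eq_top.2 Function.surjective_id
  rw [h2] at h1
  have h3 : VirtAbelian H := h1.equiv Subgroup.topEquiv
  have h4 : VirtAbelian (⊤ : Subgroup Γ) := VirtAbelian.of_sub (A := H) le_top (by
    rw [Subgroup.relIndex_top_right]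
    exact hH.index_ne_zero) h3
  exact h4.equiv Subgroup.topEquiv

end Pool.Agent.Results.MP_e120ef_ag.SolvableQuotients
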