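import Pool.Agent.K6.H67.LR.Main

/-!
# Representations over commutative rings of the fundamental groups of K-analytically special varieties

Let `K` be an algebraically closed complete non-archimedean field of characteristic zero and `X` a smooth
projective variety over `K` such that `X^an` is `K`-analytically special. Let `Γ` be the tempered
fundamental group of `X^Ber`, `P` the étale fundamental group of `X` and `G` the topological fundamental
group of the complex projective manifold `X_ℂ` which corresponds to `X`. The properties
`IsKSpecialGroup G` and `Comparison ι j` of `ι : G → P`, `j : Γ → P` are explained in `SolvableQuotients`. In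
addition it is assumed here that the images of the linear representations of the subgroups of finite
index of `G` are virtually solvable

`LinSolvable G`: over `ℂ` (true by a theorem of Campana, Claudon and Eyssidieux if `X_ℂ` is special in the sense
of Campana), and

`PosSolvable G`: over the fields of positive characteristic (true by a theorem of Deng and Yamanoi if
`X_ℂ` is special in the sense of Campana).

`LinearRepresentations` treats single representations over fields of characteristic zero. Here the
coefficients are arbitrary commutative rings, and the bounds are uniform in the ring and in the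
representation.

## Theorem

(1) For every subgroup `H` of finite index of `G` and every `n` there is ONE subgroup `A ≤ H` of finite
index of `G` such that for all commutative rings `S` and all representations `ρ : H → GL_n(S)` the
image `ρ(A)` is abelian.

(2) For every open subgroup `H` of finite index of `Γ` and every `n` there is one open subgroup `A ≤ H` of
finite index of `Γ` such that `ρ(A)` is abelian for all representations `ρ : H → GL_n(S)` of the following
kinds: `S` is any commutative ring and the kernel is open; or `S` is any commutative totally disconnected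
Hausdorff topological ring and `ρ` is continuous with relatively compact image (for example `S` is a
profinite commutative ring like `ℤ_p[[T]]` or `𝔽_q[[T]]`, and `ρ` is continuous).

(3) For every open subgroup `U` of the étale fundamental group `P` and every `n` there is one open
subgroup `A ≤ U` such that `ρ(A)` is abelian for all continuous representations `ρ : U → GL_n(S)` over
commutative Hausdorff topological rings `S`.

(4) The continuous representations of `H` (as in (2)) over locally compact totally disconnected
Hausdorff fields, of any characteristic, have virtually abelian images.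

(5) If for some `H` and `n` as in (2) the intersection of the kernels of all the representations in (2)
is trivial, then `Γ` is virtually abelian, so Q1 is true for `X`; the same if some representation
in (4) is injective.

## Proof

(1) Consider first a family of representations `σ_x` over fields `k_x`. The representation over the ring
`R = ∏ k_x` is abelian on a subgroup of finite index modulo every maximal ideal of `R`, as `G` is
`K`-special. These subgroups are finitely generated, so that the condition is given by finitely many
elements of `R`; as `R` is von Neumann regular, finitely many of the subgroups suffice for all the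
maximal ideals, and their intersection is abelian for all `x`. For a commutative ring `S` this is
applied to the residue fields of all the prime ideals: the commutators of finitely many generators of the
subgroup of finite index are trivial modulo the nilradical, so modulo a nilpotent ideal; the image is
virtually solvable, so virtually abelian. This is applied to the product `S` of the rings of all the
representations over the quotients of the rings `ℤ[x_1, ..., x_N]`.

(2) A representation with open kernel has a finitely generated image, and is defined over a finitely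
generated ring `R`. The ring is embedded into the product of the finite rings `R/m^k`, where `m` are the
maximal ideals. So there is a continuous homomorphism from `H` to a profinite group, which extends to
the closure of `j(H)` in `P`, and (1) applies to its restriction to the inverse image in `G`.
-/

set_option autoImplicit false

namespace Pool.Agent.Results.MP_e120ef_ag.UniformOverRings

open Matrix Pool.Agent.K6.H77.KT Pool.Agent.K6.H77.LT Pool.Agent.K6.H67.LR

/-- The representation `ρ` is continuous with relatively compact image, and `S` is a totally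
disconnected Hausdorff topological ring. -/
def Bounded {H S : Type} [Group H] [TopologicalSpace H] [CommRing S] [TopologicalSpace S] {n : ℕ}
    (ρ : H →* GL (Fin n) S) : Prop :=
  IsTopologicalRing S ∧ T2Space S ∧ TotallyDisconnectedSpace S ∧ Continuous ρ ∧
    ∃ C : Set (GL (Fin n) S), IsCompact C ∧ ∀ h : H, ρ h ∈ C

/-- The representation `ρ` is continuous for the given topology of the field `F`, and `F` is a locally
compact totally disconnected Hausdorff field (of any characteristic). -/
def Local {H F : Type} [Group H] [TopologicalSpace H] [Field F] [TopologicalSpace F] {n : ℕ}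
    (ρ : H →* GL (Fin n) F) : Prop :=
  IsTopologicalRing F ∧ T2Space F ∧ TotallyDisconnectedSpace F ∧ LocallyCompactSpace F ∧
    Continuous ρ

/-- All the representations of dimension `n` of the topological group `H` over commutative rings which
have an open kernel, or which are `Bounded`, have the property `R`. -/
def AllRingReps (H : Type) [Group H] [TopologicalSpace H] (n : ℕ)
    (R : ∀ (Q : Type) [Group Q], (H →* Q) → Prop) : Prop :=
  (∀ (S : Type) [CommRing S] (ρ : H →* GL (Fin n) S), IsOpen (ρ.ker : Set H) → R _ ρ) ∧
  (∀ (S : Type) [CommRing S] [TopologicalSpace S] (ρ : H →* GL (Fin n) S), Bounded ρ → R _ ρ)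

theorem result {G P Γ : Type} [Group G] [Group P] [TopologicalSpace P] [IsTopologicalGroup P]
    [CompactSpace P] [TotallyDisconnectedSpace P] [T2Space P] [Group Γ] [TopologicalSpace Γ]
    [IsTopologicalGroup Γ] (ι : G →* P) (j : Γ →* P) (hG : IsKSpecialGroup G)
    (hL : LinSolvable G) (hP : PosSolvable G) (hc : Comparison ι j) :
    -- (1)
    (∀ H : Subgroup G, H.FiniteIndex → ∀ n : ℕ, ∃ A : Subgroup G, A ≤ H ∧ A.FiniteIndex ∧
      ∀ (S : Type) [CommRing S] (ρ : H →* GL (Fin n) S), ∀ a b : H, (a : G) ∈ A → (b : G) ∈ A →
        ρ a * ρ b = ρ b * ρ a) ∧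
    -- (2)
    (∀ H : Subgroup Γ, IsOpen (H : Set Γ) → H.FiniteIndex → ∀ n : ℕ,
      ∃ A : Subgroup Γ, A ≤ H ∧ IsOpen (A : Set Γ) ∧ A.FiniteIndex ∧
        AllRingReps H n fun _ _ ρ => ∀ a b : H, (a : Γ) ∈ A → (b : Γ) ∈ A →
          ρ a * ρ b = ρ b * ρ a) ∧
    -- (3)
    (∀ U : Subgroup P, IsOpen (U : Set P) → ∀ n : ℕ, ∃ A : Subgroup P, A ≤ U ∧
      IsOpen (A : Set P) ∧ ∀ (S : Type) [CommRing S] [TopologicalSpace S] [IsTopologicalRing S]
        [T2Space S] (ρ : U →* GL (Fin n) S), Continuous ρ → ∀ a b : U, (a : P) ∈ A →
          (b : P) ∈ A → ρ a * ρ b = ρ b * ρ a) ∧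
    -- (4)
    (∀ H : Subgroup Γ, IsOpen (H : Set Γ) → H.FiniteIndex → ∀ (F : Type) [Field F]
      [TopologicalSpace F] (n : ℕ) (ρ : H →* GL (Fin n) F), Local ρ → VirtAbelian ρ.range) ∧
    -- (5)
    (∀ H : Subgroup Γ, IsOpen (H : Set Γ) → H.FiniteIndex → ∀ n : ℕ,
      (∀ h : H, (AllRingReps H n fun _ _ ρ => ρ h = 1) → h = 1) → VirtAbelian Γ) ∧
    (∀ H : Subgroup Γ, IsOpen (H : Set Γ) → H.FiniteIndex → ∀ (F : Type) [Field F]
      [TopologicalSpace F] (n : ℕ) (ρ : H →* GL (Fin n) F), Local ρ → Function.Injective ρ →
        VirtAbelian Γ) := by
  have h2 : ∀ H : Subgroup Γ, IsOpen (H : Set Γ) → H.FiniteIndex → ∀ n : ℕ,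
      ∃ A : Subgroup Γ, A ≤ H ∧ IsOpen (A : Set Γ) ∧ A.FiniteIndex ∧
        AllRingReps H n fun _ _ ρ => ∀ a b : H, (a : Γ) ∈ A → (b : Γ) ∈ A →
          ρ a * ρ b = ρ b * ρ a := by
    intro H hHo hH n
    obtain ⟨B, hBH, hBo, hB, h1, h2⟩ := unif_gamma hG hL hP hc hHo hH n
    refine ⟨B, hBH, hBo, hB, h1, ?_⟩
    rintro S _ _ ρ ⟨t1, t2, t3, t4, t5⟩
    exact h2 S ρ t4 t5
  have h4 : ∀ H : Subgroup Γ, IsOpen (H : Set Γ) → H.FiniteIndex → ∀ (F : Type) [Field F]
      [TopologicalSpace F] (n : ℕ) (ρ : H →* GL (Fin n) F), Local ρ → VirtAbelian ρ.range := by
    rintro H hHo hH F _ _ n ρ ⟨t1, t2, t3, t4, t5⟩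
    exact hom_all hG hc H hHo hH _ ρ t5 (local_field hG hL hP hc hHo hH ρ t5)
  refine ⟨?_, h2, ?_, h4, ?_, ?_⟩
  · intro H hH n
    obtain ⟨A, hA, hAc⟩ := unif_all hG hL hP hH n
    refine ⟨A.map H.subtype, ?_, Pool.Agent.N212.SG.map_finiteIndex hH hA, ?_⟩
    · rintro _ ⟨x, -, rfl⟩
      exact x.2
    · rintro S _ ρ a b ⟨x, hx, hxa⟩ ⟨y, hy, hyb⟩
      have hxa' : x = a := Subtype.ext hxa
      have hyb' : y = b := Subtype.ext hyb
      subst hxa' hyb'
      exact hAc S ρ x hx y hy
  · intro U hU n
    exact unif_etale hc.dense_ι hG hL hP hU n
  · intro H hHo hH n hsep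
    obtain ⟨A, hAH, hAo, hA, h5, h6⟩ := h2 H hHo hH n
    refine ⟨A, hA, fun a ha b hb => ?_⟩
    have h7 := hsep (⟨a, hAH ha⟩ * ⟨b, hAH hb⟩ * (⟨b, hAH hb⟩ * ⟨a, hAH ha⟩)⁻¹) ⟨?_, ?_⟩
    · have h8 := congrArg (fun x : H => (x : Γ)) (mul_inv_eq_one.1 h7)
      exact h8
    · intro S _ ρ hρ
      rw [map_mul, map_inv, map_mul, map_mul, h5 S ρ hρ ⟨a, hAH ha⟩ ⟨b, hAH hb⟩ ha hb,
        mul_inv_cancel]
    · intro S _ _ ρ hρ
      rw [map_mul, map_inv, map_mul, map_mul, h6 S ρ hρ ⟨a, hAH ha⟩ ⟨b, hAH hb⟩ ha hb,
        mul_inv_cancel]
  · intro H hHo hH F _ _ n ρ h hi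
    exact vab_of_inj (ι := ι) (j := j) hH hi (h4 H hHo hH F n ρ h)

end Pool.Agent.Results.MP_e120ef_ag.UniformOverRings
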